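import Pool.Agent.H23.CMC.Targets
import Pool.Agent.H52.CM4.SPJ

/-!
# MP_52e316_nt, board `cm4_modules`: rows G_SPT, G_SPR
-/

set_option autoImplicit false

open NumberField MeasureTheory Set Filter Complex
open scoped nonZeroDivisors Real

namespace Pool.Agent.H52.CMC

open Pool.Agent.H23.CMC
open Pool.Agent.H65.CM4 (Sq nm dg Pl rv)
open Pool.Agent.H65.CMC (Emb ty PrTo IsHk ms IsLk gg GM cG Km Idx cdc Fmc lc)
open Pool.Agent.H23.CM4 (nJ Jd Nr wB)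
open Pool.Agent.H23.LC (HG ag)
open Pool.Agent.H52.CM4 (Sx mem_Sx Sp_eq tsum_Sx norm_pv)
open Pool.Agent.H61.FM (CC pv Sp Nn)

theorem Sc_eq {K : Type} [Field K] [NumberField K] (c : (Ideal (𝓞 K))⁰ → ℂ) (x : ℝ) :
    Sc c x = ∑ J ∈ Sx K x, c J := tsum_Sx c x

theorem pf_SPT (oSPT : Pool.Agent.H23.CM4.T_SPT) (oSPJ : Pool.Agent.H23.CM4.T_SPJ)
    (oDSM : Pool.Agent.H23.CM4.T_DSM) : T_SPTc := by
  classical
  intro m
  obtain ⟨C, hC, h⟩ := oSPT m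
  refine ⟨C, hC, ?_⟩
  intro K _ _ hK c hc
  refine ⟨?_, ?_, ?_⟩
  · have h1 : Measurable fun n : ℕ => ∑ J ∈ (Finset.Icc 1 n).biUnion (Nn K), c J :=
      measurable_from_nat
    have h2 : Sc c = (fun n : ℕ => ∑ J ∈ (Finset.Icc 1 n).biUnion (Nn K), c J) ∘
        (fun x : ℝ => ⌊x⌋₊) := by
      funext x
      rw [Sc_eq]
      rfl
    rw [h2]
    exact h1.comp Nat.measurable_floor
  · intro x
    rw [Sc_eq, Sc_eq, map_sum]
  · intro x hx
    have h1 := (h K hK (1 : CC K)).2 x hx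
    have h2 : Sp (1 : CC K) x = ((Sx K x).card : ℂ) := by
      rw [Sp_eq]
      have h3 : ∀ J ∈ Sx K x, pv (1 : CC K) J = 1 := by
        intro J _
        unfold pv
        simp
      rw [Finset.sum_congr rfl h3, Finset.sum_const, nsmul_eq_mul, mul_one]
    rw [h2, Complex.norm_natCast] at h1
    calc ‖Sc c x‖ = ‖∑ J ∈ Sx K x, c J‖ := by rw [Sc_eq]
      _ ≤ ∑ J ∈ Sx K x, ‖c J‖ := norm_sum_le _ _
      _ ≤ ∑ J ∈ Sx K x, (1 : ℝ) := Finset.sum_le_sum fun J _ => hc J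
      _ = ((Sx K x).card : ℝ) := by rw [Finset.sum_const, nsmul_eq_mul, mul_one]
      _ ≤ C * x ^ 2 := h1

theorem pf_SPR (hLCN : T_LCN) (oJDM : Pool.Agent.H23.CM4.T_JDM) : T_SPRc := by
  classical
  intro k _ _ K _ _ _ ψ x
  obtain ⟨hJd, -, -, -, hNr⟩ := oJDM k
  have hn : ∀ J : (Ideal (𝓞 K))⁰, nm (Ideal.relNorm (𝓞 k) (J : Ideal (𝓞 K))) = nJ J := by
    intro J
    unfold nm nJ
    rw [Ideal.absNorm_relNorm]
  have hmaps : ∀ J ∈ Sx K x, Ideal.relNorm (𝓞 k) (J : Ideal (𝓞 K)) ∈ Jd k x := by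
    intro J hJ
    rw [hJd]
    refine ⟨?_, ?_⟩
    · rw [Ne, Ideal.relNorm_eq_bot_iff]
      exact nonZeroDivisors.ne_zero J.2
    · rw [hn]; exact mem_Sx.1 hJ
  rw [Sc_eq, ← Finset.sum_fiberwise_of_maps_to hmaps]
  refine Finset.sum_congr rfl fun I hI => ?_
  rw [hLCN k K ψ I]
  refine Finset.sum_congr ?_ fun _ _ => rfl
  ext J
  rw [Finset.mem_filter, hNr K I J]
  constructor
  · exact fun h => h.2
  · intro h
    refine ⟨?_, h⟩
    rw [mem_Sx, ← hn, h]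
    exact ((hJd x I).1 hI).2

end Pool.Agent.H52.CMC
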