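import Pool.Agent.H23.CMC.Targets

/-!
# MP_52e316_nt, board `cm4_modules`: row G_TRB
-/

set_option autoImplicit false

open NumberField MeasureTheory Set Filter Complex
open scoped nonZeroDivisors Real

namespace Pool.Agent.H52.CMC

open Pool.Agent.H23.CMC
open Pool.Agent.H65.CM4 (Sq nm dg Pl rv)
open Pool.Agent.H65.CMC (Emb ty PrTo IsHk ms IsLk gg GM cG Km Idx cdc Fmc lc)
open Pool.Agent.H23.CM4 (nJ Jd Nr wB)
open Pool.Agent.H23.LC (HG ag)

theorem pf_TRB (hPBD : T_PBDc) (hSPT : T_SPTc) (hDCX : T_DCX) : T_TRBc := by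
  intro k _ _ _
  obtain ⟨C, j, hC, h⟩ := hPBD k 0 (1 / 8) (by norm_num) le_rfl
  obtain ⟨C', hC', h'⟩ := hSPT (2 * dg k)
  refine ⟨C * (C' * 2), j, by positivity, ?_⟩
  intro K _ _ _ Φ f m ψ L hχ hL s hs
  obtain ⟨h1, h2⟩ := h K Φ f m ψ L hχ hL s hs
  obtain ⟨-, hrk, hcond, htc⟩ := hDCX k K hχ.rk
  have hf : f ≠ ⊥ := hχ.hk.fne
  have hn1 : ∀ J : (Ideal (𝓞 K))⁰, ‖cf ψ J‖ ≤ 1 := by
    intro J
    unfold cf
    by_cases hJ : PrTo f (J : Ideal (𝓞 K))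
    · exact (hχ.hk.nrm _ hJ).le
    · rw [hχ.hk.zer _ hJ, norm_zero]
      exact zero_le_one
  obtain ⟨hm, -, hb⟩ := h' K hrk (cf ψ) hn1
  have hD1 : (1 : ℝ) ≤ dC K f := (hcond f hf).1
  have hT1 : 1 ≤ Tc m s := (htc m s).1
  have hD0 : (0 : ℝ) < dC K f := by linarith
  set D := dC K f with hD
  have hsq : 0 < Real.sqrt D := Real.sqrt_pos.2 hD0
  set T := Tc m s with hT
  have hT0 : 0 ≤ T := by linarith
  have hi : IntegrableOn (fun x : ℝ => x ^ (-(3 / 2) : ℝ)) (Ioi 1) :=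
    integrableOn_Ioi_rpow_of_lt (by norm_num) one_pos
  have hv : ∫ x in Ioi (1 : ℝ), x ^ (-(3 / 2) : ℝ) = 2 := by
    rw [integral_Ioi_rpow_of_lt (by norm_num) one_pos, Real.one_rpow]
    norm_num
  have h3 : ∫ x in Ioi (1 : ℝ), ‖Sc (cf ψ) x‖ * x ^ (-(3 / 2) : ℝ) * wB (0 + 4) D x ≤
      ∫ x in Ioi (1 : ℝ), C' * D * x ^ (-(3 / 2) : ℝ) := by
    refine setIntegral_mono_on h1 (hi.const_mul (C' * D)) measurableSet_Ioi fun x hx => ?_
    have hx1 : 1 < x := hx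
    have hx0 : 0 < x := by linarith
    have e1 : 0 ≤ x ^ (-(3 / 2) : ℝ) := Real.rpow_nonneg hx0.le _
    have e2 : x ^ 2 * wB (0 + 4) D x ≤ D := by
      unfold wB
      have e3 : x ^ 2 / D ≤ (1 + x / Real.sqrt D) ^ (0 + 4) := by
        have e4 : x ^ 2 / D = (x / Real.sqrt D) ^ 2 := by
          rw [div_pow, Real.sq_sqrt hD0.le]
        have e5 : 0 ≤ x / Real.sqrt D := by positivity
        rw [e4]
        calc (x / Real.sqrt D) ^ 2 ≤ (1 + x / Real.sqrt D) ^ 2 :=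
              pow_le_pow_left₀ e5 (by linarith) 2
          _ ≤ (1 + x / Real.sqrt D) ^ (0 + 4) :=
              pow_le_pow_right₀ (by linarith) (by norm_num)
      rw [← div_eq_mul_inv, div_le_iff₀ (by positivity)]
      rw [div_le_iff₀ hD0] at e3
      linarith
    have e6 : 0 ≤ wB (0 + 4) D x := by unfold wB; positivity
    calc ‖Sc (cf ψ) x‖ * x ^ (-(3 / 2) : ℝ) * wB (0 + 4) D x
        ≤ (C' * x ^ 2) * x ^ (-(3 / 2) : ℝ) * wB (0 + 4) D x :=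
          mul_le_mul_of_nonneg_right (mul_le_mul_of_nonneg_right (hb x hx1.le) e1) e6
      _ = C' * (x ^ 2 * wB (0 + 4) D x) * x ^ (-(3 / 2) : ℝ) := by ring
      _ ≤ C' * D * x ^ (-(3 / 2) : ℝ) :=
          mul_le_mul_of_nonneg_right (mul_le_mul_of_nonneg_left e2 hC'.le) e1
  have h4 : ∫ x in Ioi (1 : ℝ), C' * D * x ^ (-(3 / 2) : ℝ) = C' * D * 2 := by
    rw [integral_const_mul, hv]
  have h6 : D ^ (2 * (1 / 8) : ℝ) ≤ D := by
    calc D ^ (2 * (1 / 8) : ℝ) ≤ D ^ (1 : ℝ) :=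
          Real.rpow_le_rpow_of_exponent_le hD1 (by norm_num)
      _ = D := Real.rpow_one _
  calc ‖L s‖ ≤ C * T ^ j * D ^ (2 * (1 / 8) : ℝ) *
        ∫ x in Ioi (1 : ℝ), ‖Sc (cf ψ) x‖ * x ^ (-(3 / 2) : ℝ) * wB (0 + 4) D x := h2
    _ ≤ C * T ^ j * D * (C' * D * 2) := by
        refine mul_le_mul ?_ (h3.trans_eq h4) ?_ (by positivity)
        · exact mul_le_mul_of_nonneg_left h6 (by positivity)
        · refine setIntegral_nonneg measurableSet_Ioi fun x hx => ?_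
          have hx0 : 0 < x := lt_trans one_pos hx
          unfold wB
          positivity
    _ = C * (C' * 2) * T ^ j * D ^ 2 := by ring

end Pool.Agent.H52.CMC
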